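import Pool.Agent.Helper84.FX.StX

/-!
# Project FX (MP_3bffab_ag), chapter T, module ADM: square roots on slit planes
-/

set_option autoImplicit false

namespace Pool.Agent.Helper97.FX

open Pool.Agent.Helper84.FX Pool.Agent.Helper72.FX
open Set

private theorem slit_sq (t : ℂ) (ht : t ∈ Complex.slitPlane) :
    Complex.exp (Complex.log t / 2) ^ 2 = t := by
  have h0 : t ≠ 0 := Complex.slitPlane_ne_zero ht
  rw [← Complex.exp_nat_mul]
  have h1 : ((2 : ℕ) : ℂ) * (Complex.log t / 2) = Complex.log t := by
    push_cast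
    ring
  rw [h1, Complex.exp_log h0]

private theorem slit_cont :
    ContinuousOn (fun t : ℂ => Complex.exp (Complex.log t / 2)) Complex.slitPlane := by
  intro t ht
  exact ((continuousAt_clog ht).div_const 2).cexp.continuousWithinAt

private theorem adm1 : Adm Complex.slitPlane :=
  ⟨Complex.isOpen_slitPlane, fun t => Complex.exp (Complex.log t / 2), slit_cont,
    fun t ht => ⟨slit_sq t ht, Complex.slitPlane_ne_zero ht⟩⟩

private theorem adm_sub (U V : Set ℂ) (hU : Adm U) (hV : IsOpen V) (h : V ⊆ U) : Adm V := by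
  obtain ⟨_, s, hs, hs2⟩ := hU
  exact ⟨hV, s, hs.mono h, fun t ht => hs2 t (h ht)⟩

private theorem open2 : IsOpen {t : ℂ | -t ∈ Complex.slitPlane} :=
  Complex.isOpen_slitPlane.preimage continuous_neg

theorem hADM : StADM := by
  refine ⟨adm1, ⟨open2, fun t => Complex.I * Complex.exp (Complex.log (-t) / 2), ?_, ?_⟩,
    adm_sub _ _ adm1 (Complex.isOpen_slitPlane.inter open2) inter_subset_left⟩
  · exact continuousOn_const.mul (slit_cont.comp continuous_neg.continuousOn (fun t ht => ht))
  · intro t ht
    refine ⟨?_, fun h => ?_⟩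
    · have h1 := slit_sq (-t) ht
      rw [mul_pow, Complex.I_sq, h1]
      ring
    · have h2 : -t ≠ 0 := Complex.slitPlane_ne_zero ht
      exact h2 (by rw [h, neg_zero])

end Pool.Agent.Helper97.FX
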