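import Pool.Agent.Helper87.FX.StB

/-!
# Project FX (MP_3bffab_ag), chapter S, module CEX: extension over one cell
-/

set_option autoImplicit false

namespace Pool.Agent.Helper97.FX

open Pool.Agent.Helper87.FX
open Set Topology

theorem hCEX : StPRM → StKEY → StCEX := by
  intro hP hK V _ Y hW d c S f hS hne hbd hfc hfm
  classical
  obtain ⟨φ, ψ, hφ, hψ, h1, h2, h3, h4, h5⟩ := hP d c
  have hcl : IsClosed (cell c) := (hK d).1 c
  have hbS : ∀ t ∈ bdc (dm c), φ t ∈ S := fun t ht => hbd _ (h1 t ht.1) (h4 t ht)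
  obtain ⟨w, hw, hwm, hwe⟩ := hW (dm c) (f ∘ φ) (hfc.comp hφ.continuousOn hbS)
    (fun t ht => hfm (hbS t ht))
  have hS' : ∀ x ∈ S, (fun x => if x ∈ S then f x else w (ψ x)) x = f x := by
    intro x hx
    exact if_pos hx
  have hC' : ∀ x ∈ cell c, (fun x => if x ∈ S then f x else w (ψ x)) x = w (ψ x) := by
    intro x hx
    by_cases hxS : x ∈ S
    · have h6 : ψ x ∈ bdc (dm c) := h5 x hx (hne x hxS)
      have h7 : w (ψ x) = f (φ (ψ x)) := hwe h6
      rw [h3 x hx] at h7
      rw [hS' x hxS, h7]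
    · exact if_neg hxS
  refine ⟨fun x => if x ∈ S then f x else w (ψ x), ?_, ?_, hS'⟩
  · refine ContinuousOn.union_of_isClosed (hfc.congr hS') ?_ hS hcl
    exact (hw.comp hψ.continuousOn h2).congr hC'
  · rintro x (hx | hx)
    · rw [hS' x hx]
      exact hfm hx
    · rw [hC' x hx]
      exact hwm (h2 x hx)

end Pool.Agent.Helper97.FX
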